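import Pool.Agent.W78.EG.Defs
import Pool.Agent.W804.EG.B6
import Pool.Agent.W78.EC.Fix5

/-!
Project EG (helper78), AVX, part 1: labels and the loss for one prime (port of W214.EX.Avx1).
-/

set_option autoImplicit false

namespace Pool.Agent.W940.EG

open Finset Filter
open Pool.Agent.W78.GA (Qd nm prim dt ip lat ball pball edge dedge nm_castR nm_cast mem_ball mem_pball)
open Pool.Agent.W78.EC (Tr av)
open Pool.Agent.W251.GX (Cm)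
open Pool.Agent.W78.EG

variable {t c : ℤ} {f : ℕ} {χ : DirichletCharacter ℂ f}

/-- roots of unity and `0` -/
noncomputable def Vs (N : ℕ) : Finset ℂ := insert 0 (Polynomial.nthRoots N (1 : ℂ)).toFinset

/-- residue classes -/
def Cs (q : ℕ) : Finset (ℕ × ℕ) := range q ×ˢ range q

/-- the labels -/
abbrev Lab (N q : ℕ) : Type := ↥(Vs N) × ↥(Vs N) × ↥(Cs q)

theorem mem_Vs {N : ℕ} {F : Qd t c → ℂ} (hF : Cm N F) (z : Qd t c) : F z ∈ Vs N := by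
  unfold Vs
  rw [mem_insert, Multiset.mem_toFinset, Polynomial.mem_nthRoots hF.pos]
  exact Or.inr (hF.pow z)

/-- the class of `z` -/
def cls (q : ℕ) (z : Qd t c) : ℕ × ℕ := ((z.re % (q : ℤ)).toNat, (z.im % (q : ℤ)).toNat)

theorem cls_mem {q : ℕ} (hq : 1 ≤ q) (z : Qd t c) : cls q z ∈ Cs q := by
  unfold Cs cls
  have h1 : (0 : ℤ) < q := by omega
  have a1 := Int.emod_nonneg z.re h1.ne'
  have a2 := Int.emod_lt_of_pos z.re h1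
  have b1 := Int.emod_nonneg z.im h1.ne'
  have b2 := Int.emod_lt_of_pos z.im h1
  rw [mem_product, mem_range, mem_range]
  simp only
  omega

/-- representative of a class -/
def rp (k : ℕ × ℕ) : Qd t c := ⟨k.1, k.2⟩

theorem rp_cls {q : ℕ} (hq : 1 ≤ q) (z : Qd t c) :
    (q : ℤ) ∣ z.re - (rp (cls q z) : Qd t c).re ∧ (q : ℤ) ∣ z.im - (rp (cls q z) : Qd t c).im := by
  unfold rp cls
  have h1 : (0 : ℤ) < q := by omega
  have a1 := Int.emod_nonneg z.re h1.ne'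
  have b1 := Int.emod_nonneg z.im h1.ne'
  simp only
  rw [Int.toNat_of_nonneg a1, Int.toNat_of_nonneg b1]
  exact ⟨Int.dvd_self_sub_emod, Int.dvd_self_sub_emod⟩

theorem cls_iff {q : ℕ} (hq : 1 ≤ q) (z : Qd t c) (k : ℕ × ℕ) (hc : k ∈ Cs q) :
    cls q z = k ↔ (q : ℤ) ∣ z.re - (rp k : Qd t c).re ∧ (q : ℤ) ∣ z.im - (rp k : Qd t c).im := by
  constructor
  · rintro rfl
    exact rp_cls hq z
  · rintro ⟨h1, h2⟩
    have h3 := rp_cls hq z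
    have hm := cls_mem hq z
    unfold Cs at hc hm
    rw [mem_product, mem_range, mem_range] at hc hm
    have key : ∀ x y : ℕ, x < q → y < q → (q : ℤ) ∣ (x : ℤ) - y → x = y := by
      intro x y hx hy hd
      have h5 : (y : ℤ) ≡ x [ZMOD q] := (Int.modEq_iff_dvd).mpr hd
      have h6 : y ≡ x [MOD q] := (Int.natCast_modEq_iff).mp h5
      exact (Nat.ModEq.eq_of_lt_of_lt h6 hy hx).symm
    have e1 : (q : ℤ) ∣ ((cls q z).1 : ℤ) - (k.1 : ℤ) := by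
      have := dvd_sub h1 h3.1
      unfold rp at this
      simp only at this
      have e : z.re - (k.1 : ℤ) - (z.re - ((cls q z).1 : ℤ)) = ((cls q z).1 : ℤ) - k.1 := by ring
      rwa [e] at this
    have e2 : (q : ℤ) ∣ ((cls q z).2 : ℤ) - (k.2 : ℤ) := by
      have := dvd_sub h2 h3.2
      unfold rp at this
      simp only at this
      have e : z.im - (k.2 : ℤ) - (z.im - ((cls q z).2 : ℤ)) = ((cls q z).2 : ℤ) - k.2 := by ring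
      rwa [e] at this
    exact Prod.ext (key _ _ hm.1 hc.1 e1) (key _ _ hm.2 hc.2 e2)

open scoped Classical in
/-- `F` in a window -/
noncomputable def wF (F : Qd t c → ℂ) (s₁ s₂ X : ℝ) (z : Qd t c) : ℂ :=
  if s₁ * X < (nm z : ℝ) ∧ (nm z : ℝ) ≤ s₂ * X then F z else 0

theorem wF_mem {N : ℕ} {F : Qd t c → ℂ} (hF : Cm N F) (s₁ s₂ X : ℝ) (z : Qd t c) :
    wF F s₁ s₂ X z ∈ Vs N := by
  unfold wF
  split_ifs
  · exact mem_Vs hF z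
  · unfold Vs
    exact mem_insert_self _ _

theorem norm_F {N : ℕ} {F : Qd t c → ℂ} (hF : Cm N F) (z : Qd t c) : ‖F z‖ = 1 :=
  Complex.norm_eq_one_of_pow_eq_one (hF.pow z) (by have := hF.pos; omega)

theorem norm_wF {N : ℕ} {F : Qd t c → ℂ} (hF : Cm N F) (s₁ s₂ X : ℝ) (z : Qd t c) :
    ‖wF F s₁ s₂ X z‖ ≤ 1 := by
  unfold wF
  split_ifs
  · exact (norm_F hF z).le
  · simp

theorem norm_Vs {N : ℕ} (hN : 1 ≤ N) (x : ↥(Vs N)) : ‖(x : ℂ)‖ ≤ 1 := by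
  obtain ⟨x, hx⟩ := x
  unfold Vs at hx
  rw [mem_insert, Multiset.mem_toFinset, Polynomial.mem_nthRoots hN] at hx
  rcases hx with h | h
  · simp [h]
  · exact (Complex.norm_eq_one_of_pow_eq_one h (by omega)).le

/-- the labelling -/
noncomputable def lb2 {N : ℕ} {F₁ F₂ : Qd t c → ℂ} (h1 : Cm N F₁) (h2 : Cm N F₂) {q : ℕ} (hq : 1 ≤ q)
    (s₁ s₂ s₃ s₄ X : ℝ) (z : Qd t c) : Lab N q :=
  (⟨wF F₁ s₁ s₂ X z, wF_mem h1 _ _ _ _⟩, ⟨wF F₂ s₃ s₄ X z, wF_mem h2 _ _ _ _⟩,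
    ⟨cls q z, cls_mem hq z⟩)

open scoped Classical in
/-- first function of the labels -/
noncomputable def d1 {N q : ℕ} (R : Qd t c → Qd t c → Prop) (k : ℕ × ℕ) (a : Lab N q) : ℂ :=
  if R (rp (a.2.2 : ℕ × ℕ)) (rp k) then (a.1 : ℂ) else 0

/-- second function of the labels -/
noncomputable def d2 {N q : ℕ} (k : ℕ × ℕ) (a : Lab N q) : ℂ :=
  if (a.2.2 : ℕ × ℕ) = k then (a.2.1 : ℂ) else 0

theorem norm_d1 {N q : ℕ} (hN : 1 ≤ N) (R : Qd t c → Qd t c → Prop) (k : ℕ × ℕ) (a : Lab N q) :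
    ‖d1 R k a‖ ≤ 1 := by
  unfold d1
  split_ifs
  · exact norm_Vs hN _
  · simp

theorem norm_d2 {N q : ℕ} (hN : 1 ≤ N) (k : ℕ × ℕ) (a : Lab N q) : ‖d2 k a‖ ≤ 1 := by
  unfold d2
  split_ifs
  · exact norm_Vs hN _
  · simp

open scoped Classical in
/-- the function of the pair, with windows -/
noncomputable def G2 (F₁ F₂ : Qd t c → ℂ) (R : Qd t c → Qd t c → Prop) (s₁ s₂ s₃ s₄ X : ℝ) (v w : Qd t c) : ℂ :=
  if R v w then wF F₁ s₁ s₂ X v * wF F₂ s₃ s₄ X w else 0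

theorem sum_d {N : ℕ} {F₁ F₂ : Qd t c → ℂ} (h1 : Cm N F₁) (h2 : Cm N F₂) {q : ℕ} (hq : 1 ≤ q)
    {R : Qd t c → Qd t c → Prop} (hR : Rel q R) (s₁ s₂ s₃ s₄ X : ℝ) (v w : Qd t c) :
    ∑ k ∈ Cs q, d1 R k (lb2 h1 h2 hq s₁ s₂ s₃ s₄ X v) * d2 k (lb2 h1 h2 hq s₁ s₂ s₃ s₄ X w) =
      G2 F₁ F₂ R s₁ s₂ s₃ s₄ X v w := by
  rw [sum_eq_single (cls q w)]
  · have hR' : R (rp (cls q v)) (rp (cls q w)) ↔ R v w := by
      obtain ⟨a1, a2⟩ := rp_cls hq v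
      obtain ⟨b1, b2⟩ := rp_cls hq w
      exact (hR.per _ _ _ _ a1 a2 b1 b2).symm
    have e2 : d2 (cls q w) (lb2 h1 h2 hq s₁ s₂ s₃ s₄ X w) = wF F₂ s₃ s₄ X w := by
      unfold d2 lb2
      simp only [if_true]
    rw [e2]
    unfold G2
    by_cases h : R v w
    · have e1 : d1 R (cls q w) (lb2 h1 h2 hq s₁ s₂ s₃ s₄ X v) = wF F₁ s₁ s₂ X v := by
        unfold d1 lb2
        exact if_pos (hR'.mpr h)
      rw [e1, if_pos h]
    · have e1 : d1 R (cls q w) (lb2 h1 h2 hq s₁ s₂ s₃ s₄ X v) = 0 := by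
        unfold d1 lb2
        exact if_neg (fun h' => h (hR'.mp h'))
      rw [e1, if_neg h, zero_mul]
  · intro k _ hc
    have e2 : d2 k (lb2 h1 h2 hq s₁ s₂ s₃ s₄ X w) = 0 := by
      unfold d2 lb2
      simp only
      rw [if_neg (fun h => hc h.symm)]
    rw [e2, mul_zero]
  · intro h
    exact absurd (cls_mem hq w) h

theorem AG_eq (F₁ F₂ : Qd t c → ℂ) (R : Qd t c → Qd t c → Prop) (s₁ s₂ s₃ s₄ X : ℝ) :
    AG (g2 F₁ F₂ R) s₁ s₂ s₃ s₄ X = ∑ e ∈ (dedge t c X).filter (fun e => 0 < pp e.1 e.2),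
      G2 F₁ F₂ R s₁ s₂ s₃ s₄ X e.1 e.2 := by
  classical
  have hfil : (dedge t c X).filter (fun e => 0 < pp e.1 e.2 ∧ s₁ * X < (nm e.1 : ℝ) ∧
      (nm e.1 : ℝ) ≤ s₂ * X ∧ s₃ * X < (nm e.2 : ℝ) ∧ (nm e.2 : ℝ) ≤ s₄ * X) =
      ((dedge t c X).filter (fun e => 0 < pp e.1 e.2)).filter (fun e =>
        s₁ * X < (nm e.1 : ℝ) ∧ (nm e.1 : ℝ) ≤ s₂ * X ∧ s₃ * X < (nm e.2 : ℝ) ∧
        (nm e.2 : ℝ) ≤ s₄ * X) := by
    rw [filter_filter]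
  have hAG : AG (g2 F₁ F₂ R) s₁ s₂ s₃ s₄ X = ∑ e ∈ ((dedge t c X).filter
      (fun e => 0 < pp e.1 e.2)).filter (fun e =>
        s₁ * X < (nm e.1 : ℝ) ∧ (nm e.1 : ℝ) ≤ s₂ * X ∧ s₃ * X < (nm e.2 : ℝ) ∧
        (nm e.2 : ℝ) ≤ s₄ * X), g2 F₁ F₂ R e := by
    rw [← hfil]
    unfold AG
    exact sum_congr (by congr) fun _ _ => rfl
  rw [hAG, sum_filter]
  refine sum_congr rfl fun e _ => ?_
  unfold g2 G2 wF
  by_cases h1 : s₁ * X < (nm e.1 : ℝ) ∧ (nm e.1 : ℝ) ≤ s₂ * X <;>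
  by_cases h2 : s₃ * X < (nm e.2 : ℝ) ∧ (nm e.2 : ℝ) ≤ s₄ * X
  · rw [if_pos ⟨h1.1, h1.2, h2.1, h2.2⟩, if_pos h1, if_pos h2]
  · rw [if_neg (fun h => h2 ⟨h.2.2.1, h.2.2.2⟩), if_neg h2]
    simp
  · rw [if_neg (fun h => h1 ⟨h.1, h.2.1⟩), if_neg h1]
    simp
  · rw [if_neg (fun h => h1 ⟨h.1, h.2.1⟩), if_neg h1]
    simp

theorem wF_mul {N : ℕ} {F : Qd t c → ℂ} (hF : Cm N F) {p : ℕ} (hp : p.Prime) {π : Qd t c} (hπ : nm π = p)
    {s₁ s₂ X : ℝ} (h0 : 0 ≤ s₁ * X) (z : Qd t c) :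
    wF F s₁ s₂ X (π * z) = F π * wF F s₁ s₂ (X / p) z := by
  have hp0 : (0 : ℝ) < p := by exact_mod_cast hp.pos
  have h1 : (nm (π * z) : ℝ) = p * nm z := by
    rw [Pool.Agent.W78.GA.nm_mul, hπ]
    push_cast
    ring
  have h2 : s₁ * X < (nm (π * z) : ℝ) ↔ s₁ * (X / p) < (nm z : ℝ) := by
    rw [h1, ← mul_div_assoc, div_lt_iff₀ hp0, mul_comm (p : ℝ)]
  have h3 : (nm (π * z) : ℝ) ≤ s₂ * X ↔ (nm z : ℝ) ≤ s₂ * (X / p) := by
    rw [h1, ← mul_div_assoc, le_div_iff₀ hp0, mul_comm (p : ℝ)]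
  unfold wF
  by_cases hc : s₁ * (X / p) < (nm z : ℝ) ∧ (nm z : ℝ) ≤ s₂ * (X / p)
  · rw [if_pos (by rw [h2, h3]; exact hc), if_pos hc]
    have hz : z ≠ 0 := by
      rintro rfl
      have := hc.1
      rw [Pool.Agent.W78.GA.nm_zero] at this
      have h4 : 0 ≤ s₁ * (X / p) := by
        rw [← mul_div_assoc]
        positivity
      push_cast at this
      linarith
    have hπ0 : π ≠ 0 := by
      rintro rfl
      rw [Pool.Agent.W78.GA.nm_zero] at hπ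
      exact hp.ne_zero hπ.symm
    exact hF.mul π z hπ0 hz
  · rw [if_neg (by rw [h2, h3]; exact hc), if_neg hc, mul_zero]

theorem G2_mul {N : ℕ} {τ : ℂ} {F₁ F₂ : Qd t c → ℂ} (hPr : Pr N τ F₁ F₂) {q : ℕ}
    {R : Qd t c → Qd t c → Prop} (hR : Rel q R) {p : ℕ} (hp : p.Prime) (hpq : Nat.Coprime p q) {π : Qd t c}
    (hπ : nm π = p) {s₁ s₂ s₃ s₄ X : ℝ} (h0 : 0 ≤ s₁ * X) (h0' : 0 ≤ s₃ * X) (v w : Qd t c) :
    G2 F₁ F₂ R s₁ s₂ s₃ s₄ X (π * v) (π * w) = τ * G2 F₁ F₂ R s₁ s₂ s₃ s₄ (X / p) v w := by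
  unfold G2
  have h1 : R (π * v) (π * w) ↔ R v w := hR.dil π v w (by rw [hπ]; exact hpq)
  have h2 : F₁ π * F₂ π = τ := hPr.tw π (by rw [hπ]; exact hp)
  rw [wF_mul hPr.cm₁ hp hπ h0, wF_mul hPr.cm₂ hp hπ h0', ← h2]
  by_cases h : R v w
  · rw [if_pos (h1.mpr h), if_pos h]; ring
  · rw [if_neg (fun h' => h (h1.mp h')), if_neg h, mul_zero]

theorem norm_tau {N : ℕ} {τ : ℂ} {F₁ F₂ : Qd t c → ℂ} (hPr : Pr N τ F₁ F₂) {p : ℕ} (hp : p.Prime)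
    {π : Qd t c} (hπ : nm π = p) : ‖τ‖ = 1 := by
  rw [← hPr.tw π (by rw [hπ]; exact hp), norm_mul, norm_F hPr.cm₁, norm_F hPr.cm₂, one_mul]

theorem norm_G2 {N : ℕ} {F₁ F₂ : Qd t c → ℂ} (h1 : Cm N F₁) (h2 : Cm N F₂) (R : Qd t c → Qd t c → Prop)
    (s₁ s₂ s₃ s₄ X : ℝ) (v w : Qd t c) : ‖G2 F₁ F₂ R s₁ s₂ s₃ s₄ X v w‖ ≤ 1 := by
  unfold G2
  split_ifs
  · rw [norm_mul]
    calc ‖wF F₁ s₁ s₂ X v‖ * ‖wF F₂ s₃ s₄ X w‖ ≤ 1 * 1 :=
          mul_le_mul (norm_wF h1 _ _ _ _) (norm_wF h2 _ _ _ _) (norm_nonneg _) zero_le_one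
      _ = 1 := one_mul 1
  · simp

open scoped Classical in
/-- the loss for one prime -/
theorem AG_split {N : ℕ} {τ : ℂ} {F₁ F₂ : Qd t c → ℂ} (hPr : Pr N τ F₁ F₂) {q : ℕ} (hq : 1 ≤ q)
    {R : Qd t c → Qd t c → Prop} (hR : Rel q R) {p : ℕ} (hp : p.Prime) (hpq : Nat.Coprime p q) {π : Qd t c}
    (hπ : nm π = p) {s s₁ s₂ s₃ s₄ X : ℝ} (h0 : 0 ≤ s₁ * X) (h0' : 0 ≤ s₃ * X)
    (hs1 : s * X ≤ s₁ * X) (hs3 : s * X ≤ s₃ * X) {K : ℕ} {κ : ℝ} {Q : ℕ} {δ : ℝ}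
    (hG : ∀ e, InG K κ Q X π e → 0 < pp e.1 e.2)
    (hL : (((dedge t c (X / p)).filter (fun e => 0 < pp e.1 e.2 ∧ s * (X / p) < (nm e.1 : ℝ) ∧
      s * (X / p) < (nm e.2 : ℝ) ∧ ¬ InG K κ Q X π e)).card : ℝ) ≤ δ) :
    ‖τ * AG (g2 F₁ F₂ R) s₁ s₂ s₃ s₄ (X / p) -
      ∑ k ∈ Cs q, ∑ e ∈ (dedge t c (X / p)).filter (InG K κ Q X π),
        d1 R k (lb2 hPr.cm₁ hPr.cm₂ hq s₁ s₂ s₃ s₄ X (π * e.1)) *
          d2 k (lb2 hPr.cm₁ hPr.cm₂ hq s₁ s₂ s₃ s₄ X (π * e.2))‖ ≤ δ := by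
  have hp0 : (0 : ℝ) < p := by exact_mod_cast hp.pos
  have hII : (dedge t c (X / p)).filter (InG K κ Q X π) =
      ((dedge t c (X / p)).filter (fun e => 0 < pp e.1 e.2)).filter (InG K κ Q X π) := by
    rw [filter_filter]
    exact filter_congr fun e _ => ⟨fun h => ⟨hG e h, h⟩, fun h => h.2⟩
  rw [sum_comm]
  simp only [sum_d hPr.cm₁ hPr.cm₂ hq hR, G2_mul hPr hR hp hpq hπ h0 h0']
  rw [hII, AG_eq, mul_sum,
    ← sum_filter_add_sum_filter_not ((dedge t c (X / p)).filter (fun e => 0 < pp e.1 e.2))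
      (InG K κ Q X π), add_sub_cancel_left]
  refine (norm_sum_le _ _).trans (le_trans ?_ hL)
  have h1 : ∀ e ∈ ((dedge t c (X / p)).filter (fun e => 0 < pp e.1 e.2)).filter
      (fun e => ¬ InG K κ Q X π e),
      ‖τ * G2 F₁ F₂ R s₁ s₂ s₃ s₄ (X / p) e.1 e.2‖ ≤
      if s * (X / p) < (nm e.1 : ℝ) ∧ s * (X / p) < (nm e.2 : ℝ) then (1 : ℝ) else 0 := by
    intro e _
    rw [norm_mul, norm_tau hPr hp hπ, one_mul]
    split_ifs with hc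
    · exact norm_G2 hPr.cm₁ hPr.cm₂ _ _ _ _ _ _ _ _
    · have ha : s * (X / p) ≤ s₁ * (X / p) := by
        rw [← mul_div_assoc, ← mul_div_assoc]
        exact div_le_div_of_nonneg_right hs1 hp0.le
      have hb : s * (X / p) ≤ s₃ * (X / p) := by
        rw [← mul_div_assoc, ← mul_div_assoc]
        exact div_le_div_of_nonneg_right hs3 hp0.le
      have hz : G2 F₁ F₂ R s₁ s₂ s₃ s₄ (X / p) e.1 e.2 = 0 := by
        unfold G2 wF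
        by_cases h2 : s₁ * (X / p) < (nm e.1 : ℝ) ∧ (nm e.1 : ℝ) ≤ s₂ * (X / p)
        · have h3 : ¬ (s₃ * (X / p) < (nm e.2 : ℝ) ∧ (nm e.2 : ℝ) ≤ s₄ * (X / p)) := by
            intro h3
            exact hc ⟨by linarith [h2.1], by linarith [h3.1]⟩
          rw [if_neg h3]
          simp
        · rw [if_neg h2]
          simp
      rw [hz, norm_zero]
  refine (sum_le_sum h1).trans ?_
  rw [sum_boole, filter_filter, filter_filter]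
  refine le_of_eq ?_
  congr 2
  refine filter_congr fun e _ => ?_
  tauto

end Pool.Agent.W940.EG
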