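import Pool.Agent.W940.EG.Avx1

/-!
Project EG (helper78), AVX, part 2: the estimate for fixed `X` (port of W214.EX.Avx2).
-/

set_option autoImplicit false

namespace Pool.Agent.W940.EG

open Finset Filter
open Pool.Agent.W78.GA (Qd nm prim dt ip lat ball pball edge dedge nm_castR nm_cast mem_ball mem_pball)
open Pool.Agent.W78.EC (Tr av)
open Pool.Agent.W251.GX (Cm)
open Pool.Agent.W78.EG

variable {t c : ℤ} {f : ℕ} {χ : DirichletCharacter ℂ f}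

theorem PQ_mem {Q p : ℕ} (h : p ∈ PQ χ Q) : Q < p ∧ p ≤ 2 * Q ∧ p.Prime ∧ χ (p : ZMod f) = 1 := by
  unfold PQ at h
  rw [mem_filter, mem_Ioc] at h
  exact ⟨h.1.1, h.1.2, h.2.1, h.2.2⟩

theorem log_nonneg_PQ {Q p : ℕ} (_hp : p ∈ PQ χ Q) : 0 ≤ Real.log p :=
  Real.log_natCast_nonneg p

/-- a prime with `χ(p) = 1` is the norm of an element -/
theorem exists_pi (hF : Fd t c f χ) {p : ℕ} (hp : p.Prime) (h4 : χ (p : ZMod f) = 1) :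
    ∃ (π : Qd t c) (r : ℤ), nm π = p ∧ lat p r π ∧ (p : ℤ) ∣ r ^ 2 - t * r + c := by
  obtain ⟨r, hr⟩ := (hF.root p hp).2 (by rw [h4]; norm_num)
  obtain ⟨z, hz, hl, -⟩ := hF.red p r hp.one_lt.le hr
  exact ⟨z, r, hz, hl, hr⟩

theorem nmZ (hD : t ^ 2 < 4 * c) (z : Qd t c) :
    (nm z : ℤ) = z.re ^ 2 + t * z.re * z.im + c * z.im ^ 2 := nm_cast hD z

theorem pp_mul (hD : t ^ 2 < 4 * c) (q v w : Qd t c) : pp (q * v) (q * w) = nm q * pp v w := by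
  rw [nmZ hD]
  unfold pp ip dt
  simp only [QuadraticAlgebra.re_mul, QuadraticAlgebra.im_mul]
  ring

/-- pairs in a cone over a good edge have positive inner product -/
theorem InG_pp (hF : Fd t c f χ) {K : ℕ} {κ : ℝ} {Q : ℕ} {X : ℝ} {π : Qd t c} (hK : 1 ≤ K)
    (hκ : 0 < κ) (hQ : 1 ≤ Q) (hX : f * (K * Q : ℝ) ≤ X) {e : Qd t c × Qd t c}
    (h : InG K κ Q X π e) : 0 < pp e.1 e.2 := by
  have hD := Pool.Agent.W804.EG.hD_of hF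
  obtain ⟨g, hg, h1, h2⟩ := h
  have hge := Pool.Agent.W804.EG.ge_of_good hF hK hκ hQ hX hg
  have hdt := hge.det
  have hip := hge.ip
  have hga : 1 ≤ nm g.1 := by
    have : g ∈ edge t c (X / (K * Q)) := (mem_filter.1 hg).1
    unfold edge at this
    have h3 := (mem_product.1 (mem_filter.1 this).1).1
    unfold pball ball at h3
    exact (mem_filter.1 (mem_filter.1 h3).1).2.1
  unfold cone at h1 h2
  have h1' := (mem_filter.1 h1).2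
  have h2' := (mem_filter.1 h2).2
  set v := π * e.1
  set w := π * e.2
  have key : pp v w = 2 * (dt v g.2 * dt w g.2 * nm g.1) + 2 * (dt g.1 v * dt g.1 w * nm g.2) +
      (dt v g.2 * dt g.1 w + dt g.1 v * dt w g.2) * pp g.1 g.2 := by
    have hn1 := nmZ hD g.1
    have hn2 := nmZ hD g.2
    rw [hn1, hn2]
    have h := hdt
    unfold dt at h
    have hv1 : v.re = dt v g.2 * g.1.re + dt g.1 v * g.2.re := by
      unfold dt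
      linear_combination (-v.re) * h
    have hv2 : v.im = dt v g.2 * g.1.im + dt g.1 v * g.2.im := by
      unfold dt
      linear_combination (-v.im) * h
    have hw1 : w.re = dt w g.2 * g.1.re + dt g.1 w * g.2.re := by
      unfold dt
      linear_combination (-w.re) * h
    have hw2 : w.im = dt w g.2 * g.1.im + dt g.1 w * g.2.im := by
      unfold dt
      linear_combination (-w.im) * h
    have e1 : pp v w = 2 * v.re * w.re + t * (v.im * w.re + v.re * w.im) + 2 * c * v.im * w.im := by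
      unfold pp ip dt
      ring
    have e2 : pp g.1 g.2 = 2 * g.1.re * g.2.re + t * (g.1.im * g.2.re + g.1.re * g.2.im) +
        2 * c * g.1.im * g.2.im := by
      unfold pp ip dt
      ring
    rw [e1, e2, hv1, hv2, hw1, hw2]
    generalize dt v g.2 = x1
    generalize dt g.1 v = y1
    generalize dt w g.2 = x2
    generalize dt g.1 w = y2
    ring
  have hpos : 0 < pp v w := by
    rw [key]
    have a1 := h1'.1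
    have a2 := h1'.2
    have b1 := h2'.1
    have b2 := h2'.2
    have n1 : (0 : ℤ) < nm g.1 := by exact_mod_cast hga
    have n2 : (0 : ℤ) ≤ nm g.2 := Int.natCast_nonneg _
    have c1 : 0 < dt v g.2 * dt w g.2 * nm g.1 := by positivity
    have c2 : 0 ≤ dt g.1 v * dt g.1 w * nm g.2 := by positivity
    have c3 : 0 ≤ (dt v g.2 * dt g.1 w + dt g.1 v * dt w g.2) * pp g.1 g.2 := by positivity
    linarith
  rw [pp_mul hD] at hpos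
  exact (pos_iff_pos_of_mul_pos hpos).1 (by
    rcases Nat.eq_zero_or_pos (nm π) with h0 | h0
    · rw [h0] at hpos
      simp at hpos
    · exact_mod_cast h0)

/-- triple sums over the cones -/
noncomputable def S3 {M : Type} [AddCommMonoid M] (K : ℕ) (κ : ℝ) (Q : ℕ) (X s₃ s₄ : ℝ)
    (φ : Qd t c → Qd t c → M) : M :=
  ∑ e ∈ good t c K κ Q X, ∑ v ∈ cone X e.1 e.2, ∑ w ∈ cw X s₃ s₄ e.1 e.2, φ v w

theorem S3_congr {M : Type} [AddCommMonoid M] {K : ℕ} {κ : ℝ} {Q : ℕ} {X s₃ s₄ : ℝ}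
    {φ g : Qd t c → Qd t c → M} (h : ∀ v w, φ v w = g v w) :
    S3 K κ Q X s₃ s₄ φ = S3 K κ Q X s₃ s₄ g := by
  unfold S3
  exact sum_congr rfl fun e _ => sum_congr rfl fun v _ => sum_congr rfl fun w _ => h v w

theorem S3_add {K : ℕ} {κ : ℝ} {Q : ℕ} {X s₃ s₄ : ℝ} (φ g : Qd t c → Qd t c → ℂ) :
    S3 K κ Q X s₃ s₄ (fun v w => φ v w + g v w) = S3 K κ Q X s₃ s₄ φ + S3 K κ Q X s₃ s₄ g := by
  unfold S3
  simp only [sum_add_distrib]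

theorem S3_mul {K : ℕ} {κ : ℝ} {Q : ℕ} {X s₃ s₄ : ℝ} (k : ℂ) (φ : Qd t c → Qd t c → ℂ) :
    S3 K κ Q X s₃ s₄ (fun v w => k * φ v w) = k * S3 K κ Q X s₃ s₄ φ := by
  unfold S3
  simp only [mul_sum]

theorem S3_real {K : ℕ} {κ : ℝ} {Q : ℕ} {X s₃ s₄ : ℝ} (φ : Qd t c → Qd t c → ℝ) :
    S3 K κ Q X s₃ s₄ (fun v w => ((φ v w : ℝ) : ℂ)) = ((S3 K κ Q X s₃ s₄ φ : ℝ) : ℂ) := by
  unfold S3
  push_cast
  rfl

/-- the bilinear term -/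
theorem bil {N : ℕ} {F₁ F₂ : Qd t c → ℂ} (h1 : Cm N F₁) (h2 : Cm N F₂) {q : ℕ} (hq : 1 ≤ q)
    (R : Qd t c → Qd t c → Prop) {K : ℕ} {κ : ℝ} {Q : ℕ} {s₁ s₂ s₃ s₄ X ε₃ : ℝ} (k : ℕ × ℕ)
    (hc : k ∈ Cs q)
    (hBr : ∀ α : Qd t c → ℝ, (∀ z, |α z| ≤ 1) → (∀ z, α z ≠ 0 → s₁ * X < (nm z : ℝ)) →
      |∑ e ∈ good t c K κ Q X, ∑ v ∈ cone X e.1 e.2, ∑ w ∈ cw X s₃ s₄ e.1 e.2,
        α v * cl q (rp k) (fun z => (F₂ z).re) w * th χ Q (dt v w)| ≤ ε₃)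
    (hBi : ∀ α : Qd t c → ℝ, (∀ z, |α z| ≤ 1) → (∀ z, α z ≠ 0 → s₁ * X < (nm z : ℝ)) →
      |∑ e ∈ good t c K κ Q X, ∑ v ∈ cone X e.1 e.2, ∑ w ∈ cw X s₃ s₄ e.1 e.2,
        α v * cl q (rp k) (fun z => (F₂ z).im) w * th χ Q (dt v w)| ≤ ε₃) :
    ‖∑ e ∈ good t c K κ Q X, ∑ v ∈ cone X e.1 e.2, ∑ w ∈ cone X e.1 e.2,
      d1 R k (lb2 h1 h2 hq s₁ s₂ s₃ s₄ X v) * d2 k (lb2 h1 h2 hq s₁ s₂ s₃ s₄ X w) *
        (th χ Q (dt v w) : ℂ)‖ ≤ 4 * ε₃ := by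
  classical
  obtain ⟨D, hD⟩ : ∃ D : Qd t c → ℂ, D = fun v => d1 R k (lb2 h1 h2 hq s₁ s₂ s₃ s₄ X v) := ⟨_, rfl⟩
  have hDn : ∀ v, ‖D v‖ ≤ 1 := fun v => by rw [hD]; exact norm_d1 h1.pos R k _
  have hDw : ∀ v, D v ≠ 0 → s₁ * X < (nm v : ℝ) := by
    intro v hv
    by_contra hcon
    apply hv
    rw [hD]
    unfold d1 lb2 wF
    simp only
    rw [if_neg (fun h : s₁ * X < (nm v : ℝ) ∧ (nm v : ℝ) ≤ s₂ * X => hcon h.1)]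
    simp
  obtain ⟨a, ha⟩ : ∃ a : Qd t c → ℝ, a = fun v => (D v).re := ⟨_, rfl⟩
  obtain ⟨b, hb⟩ : ∃ b : Qd t c → ℝ, b = fun v => (D v).im := ⟨_, rfl⟩
  have ha1 : ∀ v, |a v| ≤ 1 := fun v => by
    rw [ha]; exact (Complex.abs_re_le_norm _).trans (hDn v)
  have hb1 : ∀ v, |b v| ≤ 1 := fun v => by
    rw [hb]; exact (Complex.abs_im_le_norm _).trans (hDn v)
  have ha2 : ∀ v, a v ≠ 0 → s₁ * X < (nm v : ℝ) := by
    intro v hv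
    refine hDw v (fun h => hv ?_)
    rw [ha]; simp only; rw [h]; rfl
  have hb2 : ∀ v, b v ≠ 0 → s₁ * X < (nm v : ℝ) := by
    intro v hv
    refine hDw v (fun h => hv ?_)
    rw [hb]; simp only; rw [h]; rfl
  have hDab : ∀ v, D v = (a v : ℂ) + Complex.I * (b v : ℂ) := by
    intro v
    rw [ha, hb]
    simp only
    rw [mul_comm]
    exact (Complex.re_add_im _).symm
  obtain ⟨r, hr⟩ : ∃ r : Qd t c → ℝ, r = cl q (rp k) (fun z => (F₂ z).re) := ⟨_, rfl⟩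
  obtain ⟨m, hm⟩ : ∃ m : Qd t c → ℝ, m = cl q (rp k) (fun z => (F₂ z).im) := ⟨_, rfl⟩
  have hd2 : ∀ w, d2 k (lb2 h1 h2 hq s₁ s₂ s₃ s₄ X w) =
      if s₃ * X < (nm w : ℝ) ∧ (nm w : ℝ) ≤ s₄ * X then (r w : ℂ) + Complex.I * (m w : ℂ)
        else 0 := by
    intro w
    have e0 : d2 k (lb2 h1 h2 hq s₁ s₂ s₃ s₄ X w) =
        if cls q w = k then wF F₂ s₃ s₄ X w else 0 := rfl
    rw [e0]
    have hci := cls_iff hq w k hc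
    by_cases hw : s₃ * X < (nm w : ℝ) ∧ (nm w : ℝ) ≤ s₄ * X
    · rw [if_pos hw]
      have e1 : wF F₂ s₃ s₄ X w = F₂ w := by unfold wF; exact if_pos hw
      rw [e1, hr, hm]
      unfold cl
      by_cases hcl : (q : ℤ) ∣ w.re - (rp k : Qd t c).re ∧ (q : ℤ) ∣ w.im - (rp k : Qd t c).im
      · rw [if_pos (hci.mpr hcl), if_pos hcl, if_pos hcl, mul_comm]
        exact (Complex.re_add_im _).symm
      · rw [if_neg (fun h => hcl (hci.mp h)), if_neg hcl, if_neg hcl]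
        simp
    · rw [if_neg hw]
      have e1 : wF F₂ s₃ s₄ X w = 0 := by unfold wF; exact if_neg hw
      rw [e1]
      simp
  have hmain : ∑ e ∈ good t c K κ Q X, ∑ v ∈ cone X e.1 e.2, ∑ w ∈ cone X e.1 e.2,
      d1 R k (lb2 h1 h2 hq s₁ s₂ s₃ s₄ X v) * d2 k (lb2 h1 h2 hq s₁ s₂ s₃ s₄ X w) *
        (th χ Q (dt v w) : ℂ) =
      S3 K κ Q X s₃ s₄ (fun v w => D v * ((r w : ℂ) + Complex.I * (m w : ℂ)) *
        (th χ Q (dt v w) : ℂ)) := by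
    unfold S3
    refine sum_congr rfl fun e _ => sum_congr rfl fun v _ => ?_
    unfold cw
    rw [sum_filter]
    refine sum_congr rfl fun w _ => ?_
    rw [hd2 w, hD]
    split_ifs with hw
    · rfl
    · simp
  rw [hmain]
  have hexp : S3 K κ Q X s₃ s₄ (fun v w => D v * ((r w : ℂ) + Complex.I * (m w : ℂ)) *
        (th χ Q (dt v w) : ℂ)) =
      ((S3 K κ Q X s₃ s₄ (fun v w => a v * r w * th χ Q (dt v w)) : ℝ) : ℂ) +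
      (((-1 : ℂ) * ((S3 K κ Q X s₃ s₄ (fun v w => b v * m w * th χ Q (dt v w)) : ℝ) : ℂ)) +
      (Complex.I * ((S3 K κ Q X s₃ s₄ (fun v w => a v * m w * th χ Q (dt v w)) : ℝ) : ℂ) +
      Complex.I * ((S3 K κ Q X s₃ s₄ (fun v w => b v * r w * th χ Q (dt v w)) : ℝ) : ℂ))) := by
    rw [← S3_real, ← S3_real, ← S3_real, ← S3_real, ← S3_mul, ← S3_mul, ← S3_mul, ← S3_add,
      ← S3_add, ← S3_add]
    refine S3_congr fun v w => ?_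
    rw [hDab v]
    push_cast
    linear_combination ((b v : ℂ) * (m w : ℂ) * (th χ Q (dt v w) : ℂ)) * Complex.I_sq
  rw [hexp]
  have k1 : ‖((S3 K κ Q X s₃ s₄ (fun v w => a v * r w * th χ Q (dt v w)) : ℝ) : ℂ)‖ ≤ ε₃ := by
    rw [Complex.norm_real, hr]; exact hBr a ha1 ha2
  have k2 : ‖(-1 : ℂ) * ((S3 K κ Q X s₃ s₄ (fun v w => b v * m w * th χ Q (dt v w)) : ℝ) : ℂ)‖ ≤
      ε₃ := by
    rw [norm_mul, norm_neg, norm_one, one_mul, Complex.norm_real, hm]; exact hBi b hb1 hb2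
  have k3 : ‖Complex.I * ((S3 K κ Q X s₃ s₄ (fun v w => a v * m w * th χ Q (dt v w)) : ℝ) : ℂ)‖ ≤
      ε₃ := by
    rw [norm_mul, Complex.norm_I, one_mul, Complex.norm_real, hm]; exact hBi a ha1 ha2
  have k4 : ‖Complex.I * ((S3 K κ Q X s₃ s₄ (fun v w => b v * r w * th χ Q (dt v w)) : ℝ) : ℂ)‖ ≤
      ε₃ := by
    rw [norm_mul, Complex.norm_I, one_mul, Complex.norm_real, hr]; exact hBr b hb1 hb2
  calc _ ≤ _ := norm_add_le _ _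
    _ ≤ ε₃ + (ε₃ + (ε₃ + ε₃)) := add_le_add k1 ((norm_add_le _ _).trans (add_le_add k2
        ((norm_add_le _ _).trans (add_le_add k3 k4))))
    _ = 4 * ε₃ := by ring

open scoped Classical in
/-- the estimate for fixed `X` -/
theorem per_X2 (hF : Fd t c f χ) (hp : S_PERX t c χ) {N : ℕ} {τ : ℂ} {F₁ F₂ : Qd t c → ℂ} (hPr : Pr N τ F₁ F₂) {q : ℕ}
    (hq : 1 ≤ q) {R : Qd t c → Qd t c → Prop} (hR : Rel q R) {K : ℕ} {κ : ℝ} {Q : ℕ}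
    {s s₁ s₂ s₃ s₄ X ε₃ ε' : ℝ} (hs₁ : 0 < s₁) (hs₃ : 0 < s₃) (hs1 : s ≤ s₁) (hs3 : s ≤ s₃)
    (hK : 1 ≤ K) (hκ : 0 < κ) (hQ : 1 ≤ Q) (hqQ : q ≤ Q) (hX : f * (K * Q : ℝ) ≤ X)
    (ϖ : ℕ → Qd t c) (rr : ℕ → ℤ) (hϖ : ∀ p ∈ PQ χ Q, nm (ϖ p) = p ∧ lat p (rr p) (ϖ p) ∧
      (p : ℤ) ∣ rr p ^ 2 - t * rr p + c)
    (ζ₁ ζ₂ : ℕ × ℕ → ℕ → Tr (Lab N q) → ℕ × ℕ × ℕ × ℕ → ℝ)
    (hζ : ∀ k ∈ Cs q, ∀ e ∈ good t c K κ Q X, ∀ p ∈ PQ χ Q,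
      (((ζ₁ k p (TT (lb2 hPr.cm₁ hPr.cm₂ hq s₁ s₂ s₃ s₄ X) X e) (res p e) : ℝ) : ℂ) +
        Complex.I * ((ζ₂ k p (TT (lb2 hPr.cm₁ hPr.cm₂ hq s₁ s₂ s₃ s₄ X) X e) (res p e) : ℝ) : ℂ) =
      (((p : ℝ) + 1) / (2 * Q) : ℝ) * ∑ z ∈ cone X e.1 e.2, ∑ w ∈ cone X e.1 e.2,
        (if dt z w = p ∧ lat p (rr p) z then d1 R k (lb2 hPr.cm₁ hPr.cm₂ hq s₁ s₂ s₃ s₄ X z) *
          d2 k (lb2 hPr.cm₁ hPr.cm₂ hq s₁ s₂ s₃ s₄ X w) else 0)) ∧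
      (((av p (ζ₁ k p) (TT (lb2 hPr.cm₁ hPr.cm₂ hq s₁ s₂ s₃ s₄ X) X e) : ℝ) : ℂ) +
        Complex.I * ((av p (ζ₂ k p) (TT (lb2 hPr.cm₁ hPr.cm₂ hq s₁ s₂ s₃ s₄ X) X e) : ℝ) : ℂ) =
      (1 / (2 * (Q : ℝ)) : ℝ) * ∑ z ∈ cone X e.1 e.2, ∑ w ∈ cone X e.1 e.2,
        (if dt z w = p then d1 R k (lb2 hPr.cm₁ hPr.cm₂ hq s₁ s₂ s₃ s₄ X z) *
          d2 k (lb2 hPr.cm₁ hPr.cm₂ hq s₁ s₂ s₃ s₄ X w) else 0)))
    (hB : ∀ k ∈ Cs q, ∀ α : Qd t c → ℝ, (∀ z, |α z| ≤ 1) → (∀ z, α z ≠ 0 → s₁ * X < (nm z : ℝ)) →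
      |∑ e ∈ good t c K κ Q X, ∑ v ∈ cone X e.1 e.2, ∑ w ∈ cw X s₃ s₄ e.1 e.2,
        α v * cl q (rp k) (fun z => (F₂ z).re) w * th χ Q (dt v w)| ≤ ε₃ * X * Q ∧
      |∑ e ∈ good t c K κ Q X, ∑ v ∈ cone X e.1 e.2, ∑ w ∈ cw X s₃ s₄ e.1 e.2,
        α v * cl q (rp k) (fun z => (F₂ z).im) w * th χ Q (dt v w)| ≤ ε₃ * X * Q)
    (hne : (PQ χ Q).Nonempty) (hε' : 0 ≤ ε')
    (hL : ∀ p ∈ PQ χ Q, ∀ π : Qd t c, nm π = p →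
      (((dedge t c (X / p)).filter (fun e => 0 < pp e.1 e.2 ∧ s * (X / p) < (nm e.1 : ℝ) ∧
        s * (X / p) < (nm e.2 : ℝ) ∧ ¬ InG K κ Q X π e)).card : ℝ) ≤ ε' * (X / p)) :
    ‖∑ p ∈ PQ χ Q, ((Real.log p * ((p : ℝ) + 1) : ℝ) : ℂ) *
        AG (g2 F₁ F₂ R) s₁ s₂ s₃ s₄ (X / p)‖ ≤
      2 * Q * ∑ k ∈ Cs q, ∑ e ∈ edge t c (X / (K * Q)),
        (|∑ p ∈ PQ χ Q, Real.log p * (ζ₁ k p (TT (lb2 hPr.cm₁ hPr.cm₂ hq s₁ s₂ s₃ s₄ X) X e) (res p e) -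
          av p (ζ₁ k p) (TT (lb2 hPr.cm₁ hPr.cm₂ hq s₁ s₂ s₃ s₄ X) X e))| +
        |∑ p ∈ PQ χ Q, Real.log p * (ζ₂ k p (TT (lb2 hPr.cm₁ hPr.cm₂ hq s₁ s₂ s₃ s₄ X) X e) (res p e) -
          av p (ζ₂ k p) (TT (lb2 hPr.cm₁ hPr.cm₂ hq s₁ s₂ s₃ s₄ X) X e))|) +
      (4 * (Cs q).card * ε₃ * X * Q + 2 * ε' * X * ∑ p ∈ PQ χ Q, Real.log p) := by
  have hKQ : (0 : ℝ) < K * Q := by
    have h1 : (1 : ℝ) ≤ K := by exact_mod_cast hK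
    have h2 : (1 : ℝ) ≤ Q := by exact_mod_cast hQ
    positivity
  have hX0 : 0 ≤ X := le_trans (by positivity) hX
  obtain ⟨S, hS⟩ : ∃ S : ℕ × ℕ → ℕ → ℂ, S = fun (k : ℕ × ℕ) (p : ℕ) =>
      ∑ e ∈ (dedge t c (X / p)).filter (InG K κ Q X (ϖ p)),
        d1 R k (lb2 hPr.cm₁ hPr.cm₂ hq s₁ s₂ s₃ s₄ X (ϖ p * e.1)) *
          d2 k (lb2 hPr.cm₁ hPr.cm₂ hq s₁ s₂ s₃ s₄ X (ϖ p * e.2)) := ⟨_, rfl⟩
  -- each class
  have hc1 : ∀ k ∈ Cs q, ‖∑ p ∈ PQ χ Q, ((Real.log p * ((p : ℝ) + 1) : ℝ) : ℂ) * S k p‖ ≤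
      2 * Q * ∑ e ∈ edge t c (X / (K * Q)),
        (|∑ p ∈ PQ χ Q, Real.log p * (ζ₁ k p (TT (lb2 hPr.cm₁ hPr.cm₂ hq s₁ s₂ s₃ s₄ X) X e) (res p e) -
          av p (ζ₁ k p) (TT (lb2 hPr.cm₁ hPr.cm₂ hq s₁ s₂ s₃ s₄ X) X e))| +
        |∑ p ∈ PQ χ Q, Real.log p * (ζ₂ k p (TT (lb2 hPr.cm₁ hPr.cm₂ hq s₁ s₂ s₃ s₄ X) X e) (res p e) -
          av p (ζ₂ k p) (TT (lb2 hPr.cm₁ hPr.cm₂ hq s₁ s₂ s₃ s₄ X) X e))|) +
      4 * (ε₃ * X * Q) := by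
    intro k hc
    have h1 := hp K κ Q X (Lab N q) (d1 R k) (d2 k) (lb2 hPr.cm₁ hPr.cm₂ hq s₁ s₂ s₃ s₄ X) ϖ rr
      (ζ₁ k) (ζ₂ k) hK hκ hQ hX hϖ (hζ k hc)
    have h2 := bil hPr.cm₁ hPr.cm₂ hq R (K := K) (κ := κ) (Q := Q) (s₁ := s₁) (s₂ := s₂)
      (s₃ := s₃) (s₄ := s₄) (X := X) k hc (fun α a1 a2 => (hB k hc α a1 a2).1)
      (fun α a1 a2 => (hB k hc α a1 a2).2)
    rw [hS]
    exact h1.trans (by linarith)
  -- the loss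
  have hτ : ‖τ‖ = 1 := by
    obtain ⟨p, hpm⟩ := hne
    exact norm_tau hPr (PQ_mem hpm).2.2.1 (hϖ p hpm).1
  have hloss : ‖∑ p ∈ PQ χ Q, ((Real.log p * ((p : ℝ) + 1) : ℝ) : ℂ) *
      (τ * AG (g2 F₁ F₂ R) s₁ s₂ s₃ s₄ (X / p) - ∑ k ∈ Cs q, S k p)‖ ≤
      2 * ε' * X * ∑ p ∈ PQ χ Q, Real.log p := by
    rw [mul_sum]
    refine (norm_sum_le _ _).trans (sum_le_sum fun p hpm => ?_)
    have hpp := (PQ_mem hpm).2.2.1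
    have hp0 : (0 : ℝ) < p := by exact_mod_cast hpp.pos
    have hp1 : (1 : ℝ) ≤ p := by exact_mod_cast hpp.one_lt.le
    have hcop : Nat.Coprime p q := by
      rw [Nat.Prime.coprime_iff_not_dvd hpp]
      intro hd
      have h1 := Nat.le_of_dvd (by omega) hd
      have h2 := (PQ_mem hpm).1
      omega
    have h1 := AG_split hPr hq hR hpp hcop (hϖ p hpm).1 (s := s) (s₁ := s₁) (s₂ := s₂) (s₃ := s₃)
      (s₄ := s₄) (X := X) (by positivity) (by positivity) (mul_le_mul_of_nonneg_right hs1 hX0)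
      (mul_le_mul_of_nonneg_right hs3 hX0) (fun e he => InG_pp hF hK hκ hQ hX he)
      (hL p hpm _ (hϖ p hpm).1)
    rw [norm_mul, Complex.norm_real, Real.norm_eq_abs,
      abs_of_nonneg (mul_nonneg (log_nonneg_PQ hpm) (by positivity))]
    have h1' : ‖τ * AG (g2 F₁ F₂ R) s₁ s₂ s₃ s₄ (X / p) - ∑ k ∈ Cs q, S k p‖ ≤ ε' * (X / p) := by
      rw [hS]
      exact h1
    calc Real.log p * ((p : ℝ) + 1) * ‖τ * AG (g2 F₁ F₂ R) s₁ s₂ s₃ s₄ (X / p) -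
          ∑ k ∈ Cs q, S k p‖ ≤ Real.log p * ((p : ℝ) + 1) * (ε' * (X / p)) :=
          mul_le_mul_of_nonneg_left h1' (mul_nonneg (log_nonneg_PQ hpm) (by positivity))
      _ = Real.log p * ε' * X * (((p : ℝ) + 1) / p) := by ring
      _ ≤ Real.log p * ε' * X * 2 := by
          refine mul_le_mul_of_nonneg_left ?_
            (mul_nonneg (mul_nonneg (log_nonneg_PQ hpm) hε') hX0)
          rw [div_le_iff₀ hp0]
          linarith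
      _ = 2 * ε' * X * Real.log p := by ring
  have hdec : τ * ∑ p ∈ PQ χ Q, ((Real.log p * ((p : ℝ) + 1) : ℝ) : ℂ) *
        AG (g2 F₁ F₂ R) s₁ s₂ s₃ s₄ (X / p) =
      ∑ p ∈ PQ χ Q, ((Real.log p * ((p : ℝ) + 1) : ℝ) : ℂ) *
        (τ * AG (g2 F₁ F₂ R) s₁ s₂ s₃ s₄ (X / p) - ∑ k ∈ Cs q, S k p) +
      ∑ k ∈ Cs q, ∑ p ∈ PQ χ Q, ((Real.log p * ((p : ℝ) + 1) : ℝ) : ℂ) * S k p := by
    rw [sum_comm, ← sum_add_distrib, mul_sum]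
    refine sum_congr rfl fun p _ => ?_
    rw [← mul_sum]
    ring
  have hnorm : ‖∑ p ∈ PQ χ Q, ((Real.log p * ((p : ℝ) + 1) : ℝ) : ℂ) *
        AG (g2 F₁ F₂ R) s₁ s₂ s₃ s₄ (X / p)‖ =
      ‖τ * ∑ p ∈ PQ χ Q, ((Real.log p * ((p : ℝ) + 1) : ℝ) : ℂ) *
        AG (g2 F₁ F₂ R) s₁ s₂ s₃ s₄ (X / p)‖ := by rw [norm_mul, hτ, one_mul]
  rw [hnorm, hdec]
  refine (norm_add_le _ _).trans ?_
  have hcs := (norm_sum_le (Cs q) (fun k => ∑ p ∈ PQ χ Q,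
    ((Real.log p * ((p : ℝ) + 1) : ℝ) : ℂ) * S k p)).trans (sum_le_sum hc1)
  rw [sum_add_distrib, sum_const, nsmul_eq_mul, ← mul_sum] at hcs
  have e : ((Cs q).card : ℝ) * (4 * (ε₃ * X * Q)) = 4 * (Cs q).card * ε₃ * X * Q := by ring
  rw [e] at hcs
  linarith

end Pool.Agent.W940.EG
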